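import Pool.Agent.Helper69.RF.Bas

/-! MODULE NRM of project RF: a norm is `2^s`. -/

set_option autoImplicit false

open Polynomial Helper62.Weber Pool.Agent.Helper69.RF

namespace Pool.Agent.Helper81.RF

/-- the monic integer polynomial with roots `cR n (2i+1)` -/
noncomputable def ff : ℕ → ℤ[X]
  | 0 => X
  | n + 1 => (ff n).comp (X ^ 2 - 2)

theorem ff_eval (n : ℕ) (β : ℂ) (hβ : β ≠ 0) :
    aeval (β + β⁻¹) (ff n) = β ^ 2 ^ n + (β⁻¹) ^ 2 ^ n := by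
  induction n generalizing β with
  | zero => simp [ff]
  | succ n ih =>
    have h := ih (β ^ 2) (pow_ne_zero _ hβ)
    have e1 : (β + β⁻¹) ^ 2 - 2 = β ^ 2 + (β ^ 2)⁻¹ := by
      field_simp
      ring
    rw [ff, aeval_comp]
    have e2 : aeval (β + β⁻¹) ((X : ℤ[X]) ^ 2 - 2) = (β + β⁻¹) ^ 2 - 2 := by
      rw [map_sub, map_pow, aeval_X, map_ofNat]
    rw [e2, e1, h, ← pow_mul, inv_pow, ← pow_mul, inv_pow, ← pow_succ']

theorem exists_beta (t : ℂ) : ∃ β : ℂ, β ≠ 0 ∧ t = β + β⁻¹ := by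
  obtain ⟨s, hs⟩ := IsAlgClosed.exists_pow_nat_eq (t ^ 2 - 4) (show 0 < 2 by norm_num)
  have h : (t + s) * (t - s) = 4 := by
    have : (t + s) * (t - s) = t ^ 2 - s ^ 2 := by ring
    rw [this, hs]
    ring
  have h1 : t + s ≠ 0 := by
    intro h0
    rw [h0, zero_mul] at h
    norm_num at h
  refine ⟨(t + s) / 2, div_ne_zero h1 two_ne_zero, ?_⟩
  have h2 : ((t + s) / 2)⁻¹ = (t - s) / 2 := by
    rw [inv_div, div_eq_div_iff h1 two_ne_zero]
    rw [mul_comm (t - s), h]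
    norm_num
  rw [h2]
  ring

theorem ff_prod (hPSI : PSI) (n : ℕ) :
    ∏ i ∈ Finset.range (2 ^ n), (X - C ((cR n (2 * i + 1) : ℝ) : ℂ)) =
      (ff n).map (Int.castRingHom ℂ) := by
  apply Polynomial.funext
  intro t
  obtain ⟨β, hβ, rfl⟩ := exists_beta t
  rw [eval_prod]
  have h1 : ((ff n).map (Int.castRingHom ℂ)).eval (β + β⁻¹) = aeval (β + β⁻¹) (ff n) := by
    rw [eval_map]
    rfl
  rw [h1, ff_eval n β hβ, ← hPSI n β hβ]
  exact Finset.prod_congr rfl fun i _ => by simp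

/-- the norm is an integer -/
theorem norm_int (hPSI : PSI) (P : ℤ[X]) (n : ℕ) :
    ∃ r : ℤ, ∏ i ∈ Finset.range (2 ^ n), aeval (cR n (2 * i + 1)) P = (r : ℝ) := by
  set d := (∏ i ∈ Finset.range (2 ^ n), (X - C ((cR n (2 * i + 1) : ℝ) : ℂ))).natDegree with hd
  refine ⟨resultant (ff n) P d P.natDegree, ?_⟩
  have h1 := resultant_map_map (ff n) P d P.natDegree (Int.castRingHom ℂ)
  rw [← ff_prod hPSI n, hd, resultant_prod_left _ _ _ _ (by simp) natDegree_map_le] at h1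
  apply Complex.ofReal_injective
  rw [Complex.ofReal_prod, Complex.ofReal_intCast]
  rw [eq_intCast] at h1
  rw [← h1]
  refine Finset.prod_congr rfl fun i _ => ?_
  rw [natDegree_X_sub_C, resultant_X_sub_C_left _ _ _ natDegree_map_le, eval_map]
  have : ((aeval (cR n (2 * i + 1)) P : ℝ) : ℂ) = aeval ((cR n (2 * i + 1) : ℝ) : ℂ) P :=
    (aeval_algHom_apply (Complex.ofRealAm.restrictScalars ℤ) (cR n (2 * i + 1)) P).symm
  rw [this]
  rfl

theorem prod_abs (hPSI : PSI) (n : ℕ) (hn : 1 ≤ n) :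
    |∏ i ∈ Finset.range (2 ^ n), cR n (2 * i + 1)| = 2 := by
  have h := hPSI n Complex.I Complex.I_ne_zero
  obtain ⟨m, rfl⟩ : ∃ m, n = m + 1 := ⟨n - 1, by omega⟩
  have h1 : Complex.I + Complex.I⁻¹ = 0 := by simp
  have h2 : Complex.I ^ 2 ^ (m + 1) + (Complex.I⁻¹) ^ 2 ^ (m + 1) = 2 * (-1) ^ 2 ^ m := by
    rw [pow_succ' 2 m, pow_mul, pow_mul, Complex.I_sq, inv_pow, Complex.I_sq]
    norm_num
    ring
  rw [h2, h1] at h
  have h3 : ‖∏ i ∈ Finset.range (2 ^ (m + 1)), (0 - ((cR (m + 1) (2 * i + 1) : ℝ) : ℂ))‖ = 2 := by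
    rw [h]
    simp
  rw [norm_prod] at h3
  rw [Finset.abs_prod, ← h3]
  refine Finset.prod_congr rfl fun i _ => ?_
  rw [zero_sub, norm_neg, Complex.norm_real, Real.norm_eq_abs]

theorem aeval_ne {n j : ℕ} (hj : Odd j) (P : ℤ[X]) (h : aeval (XR n) P ≠ 0) :
    aeval (cR n j) P ≠ 0 := by
  intro h0
  apply h
  rw [aeval_Z] at h0 ⊢
  have hint : IsIntegral ℚ (XR n) := (XR_int n).tower_top
  have h1 := conj_zero hj (minpoly ℚ (XR n)) (minpoly.aeval ℚ (XR n))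
  have h2 := minpoly.eq_of_irreducible_of_monic (minpoly.irreducible hint) h1 (minpoly.monic hint)
  have h3 : minpoly ℚ (XR n) ∣ P.map (Int.castRingHom ℚ) := by
    rw [h2]
    exact minpoly.dvd ℚ _ h0
  obtain ⟨q, hq⟩ := h3
  rw [hq, map_mul, minpoly.aeval, zero_mul]

theorem int_of_rat {r k : ℤ} (h : IsIntegral ℤ ((r : ℝ) / (k : ℝ))) :
    ∃ y : ℤ, (y : ℝ) = r / k := by
  have h1 : ((r : ℝ) / (k : ℝ)) = algebraMap ℚ ℝ ((r : ℚ) / (k : ℚ)) := by
    simp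
  rw [h1] at h
  have h2 : IsIntegral ℤ ((r : ℚ) / (k : ℚ)) :=
    (isIntegral_algebraMap_iff (algebraMap ℚ ℝ).injective).1 h
  obtain ⟨y, hy⟩ := IsIntegrallyClosed.isIntegral_iff.1 h2
  refine ⟨y, ?_⟩
  rw [h1, ← hy]
  simp

theorem cNRM : NRM := by
  intro hPSI P n s hn hP h1 h2
  have hodd : ∀ i : ℕ, Odd (2 * i + 1) := fun i => ⟨i, rfl⟩
  set c : ℕ → ℝ := fun i => cR n (2 * i + 1) with hc
  have hX : ∀ x : ℝ, aeval x ((X : ℤ[X]) ^ s) = x ^ s := fun x => by simp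
  have i1 : ∀ i, IsIntegral ℤ (aeval (c i) P / c i ^ s) := by
    intro i
    have := conj_intZ (hodd i) P (X ^ s) (n := n) (by rw [hX]; exact h1)
    rwa [hX] at this
  have i2 : ∀ i, IsIntegral ℤ (c i ^ s / aeval (c i) P) := by
    intro i
    have := conj_intZ (hodd i) (X ^ s) P (n := n) (by rw [hX]; exact h2)
    rwa [hX] at this
  have hne : ∀ i, aeval (c i) P ≠ 0 := fun i => aeval_ne (hodd i) P hP
  obtain ⟨r, hr⟩ := norm_int hPSI P n
  obtain ⟨k₀, hk₀⟩ := norm_int hPSI X n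
  have hk1 : ∏ i ∈ Finset.range (2 ^ n), c i = (k₀ : ℝ) := by
    rw [← hk₀]
    exact Finset.prod_congr rfl fun i _ => by simp [hc]
  have hk2 : |(k₀ : ℝ)| = 2 := by
    rw [← hk1]
    exact prod_abs hPSI n hn
  have hr0 : (r : ℝ) ≠ 0 := by
    rw [← hr]
    exact Finset.prod_ne_zero_iff.2 fun i _ => hne i
  have hk0 : (k₀ : ℝ) ≠ 0 := by
    intro h0
    rw [h0, abs_zero] at hk2
    norm_num at hk2
  -- the two quotients
  have j1 : IsIntegral ℤ ((r : ℝ) / ((k₀ ^ s : ℤ) : ℝ)) := by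
    have : (r : ℝ) / ((k₀ ^ s : ℤ) : ℝ) =
        ∏ i ∈ Finset.range (2 ^ n), (aeval (c i) P / c i ^ s) := by
      rw [Finset.prod_div_distrib, Finset.prod_pow, hk1, hr]
      push_cast
      rfl
    rw [this]
    exact IsIntegral.prod _ fun i _ => i1 i
  have j2 : IsIntegral ℤ (((k₀ ^ s : ℤ) : ℝ) / (r : ℝ)) := by
    have : ((k₀ ^ s : ℤ) : ℝ) / (r : ℝ) =
        ∏ i ∈ Finset.range (2 ^ n), (c i ^ s / aeval (c i) P) := by
      rw [Finset.prod_div_distrib, Finset.prod_pow, hk1, hr]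
      push_cast
      rfl
    rw [this]
    exact IsIntegral.prod _ fun i _ => i2 i
  obtain ⟨y, hy⟩ := int_of_rat j1
  obtain ⟨y', hy'⟩ := int_of_rat j2
  have hks : ((k₀ ^ s : ℤ) : ℝ) ≠ 0 := by
    push_cast
    exact pow_ne_zero _ hk0
  have hyy : y * y' = 1 := by
    have : ((y * y' : ℤ) : ℝ) = 1 := by
      push_cast [-Int.cast_pow]
      rw [hy, hy']
      field_simp
    exact_mod_cast this
  have hy1 : |y| = 1 := Int.isUnit_iff_abs_eq.1 (IsUnit.of_mul_eq_one _ hyy)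
  have hr2 : (r : ℝ) = y * k₀ ^ s := by
    rw [hy]
    push_cast
    rw [div_mul_cancel₀ _ (pow_ne_zero _ hk0)]
  rw [hr, hr2, abs_mul, abs_pow, hk2]
  have : |(y : ℝ)| = 1 := by exact_mod_cast hy1
  rw [this, one_mul]

end Pool.Agent.Helper81.RF
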